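import Pool.Agent.V7H90.OE.Defs
import Pool.Agent.H660R2.NX.Univ

/-!
# The diagonal string
-/

set_option autoImplicit false

namespace Pool.Agent.V7H90.OE

open Pool.Agent.NPC Pool.Agent.H660R2.NX

theorem poly_bits {α : Type} [TEnc α] : Poly (fun a : α => (bits a : List Bool)) := by
  obtain ⟨c, p, h⟩ := PC.rawIn
  exact ⟨c, p, fun a => h (bits a)⟩

/-- the number with the index `i` interpreted as the code of a program -/
def codeOf (i : ℕ) : Option (T × List Unit) := unbits (T × List Unit) (i.bits.reverse.tail.reverse)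

/-- the next letter of the diagonal string of length `|t|` after `w` -/
def letter (t : List Unit) (w : List ℕ) : ℕ :=
  (codeOf (w.length % (t.length.bits.length + 1))).elim 0 (fun e =>
    ((U e (bits (w ++ [0], [()])) t.length).bind (unbits (ℤ × ℕ))).elim 0 (fun a =>
      ((U e (bits (w ++ [1], [()])) t.length).bind (unbits (ℤ × ℕ))).elim 0 (fun b =>
        if b.1.natAbs * a.2 < a.1.natAbs * b.2 then 1 else 0)))

/-- the diagonal string of length `|t|` -/
def diag (t : List Unit) : List ℕ := (fun w => w ++ [letter t w])^[t.length] []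

theorem poly_natAbs {α : Type} [TEnc α] {f : α → ℤ} (hf : Poly f) : Poly (fun a => (f a).natAbs) :=
  Poly.of_toT ((Poly.tl hf.toT').congr fun _ => rfl)

attribute [local fun_prop] Poly.optBind Poly.isSome poly_natAbs

theorem poly_codeOf : Poly codeOf := by
  unfold codeOf
  exact poly_unbits.comp (Poly.reverse (Poly.tail (Poly.reverse (Poly.natBits Poly.id))))

theorem poly_out {α : Type} [TEnc α] {e : α → T × List Unit} {w : α → List ℕ} {t : α → List Unit}
    {b : ℕ} (he : Poly e) (hw : Poly w) (ht : Poly t) :
    Poly (fun a => (U (e a) (bits (w a ++ [b], [()])) (t a).length).bind (unbits (ℤ × ℕ))) := by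
  refine Poly.optBind (f := fun _ x => unbits (ℤ × ℕ) x) ?_ (poly_unbits.comp (Poly.snd Poly.id))
  have h1 : Poly (fun a => bits (w a ++ [b], [()])) :=
    poly_bits.comp (f := fun a => (w a ++ [b], [()])) (by fun_prop)
  exact poly_U.comp (f := fun a => (e a, bits (w a ++ [b], [()]), t a))
    (Poly.pair he (Poly.pair h1 ht))

theorem poly_letter : Poly (fun p : List Unit × List ℕ => letter p.1 p.2) := by
  unfold letter
  refine Poly.optElim (o := fun p : List Unit × List ℕ =>
    codeOf (p.2.length % (p.1.length.bits.length + 1))) (g := fun _ => 0)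
    (h := fun p e => ((U e (bits (p.2 ++ [0], [()])) p.1.length).bind (unbits (ℤ × ℕ))).elim 0
      (fun a => ((U e (bits (p.2 ++ [1], [()])) p.1.length).bind (unbits (ℤ × ℕ))).elim 0 (fun b =>
        if b.1.natAbs * a.2 < a.1.natAbs * b.2 then 1 else 0)))
    (poly_codeOf.comp (Poly.mod (by fun_prop) (Poly.add (Poly.length
      (Poly.natBits (Poly.length (Poly.fst Poly.id)))) (NPC.Poly.const 1)))) (by fun_prop) ?_
  refine Poly.optElim (o := fun p : (List Unit × List ℕ) × (T × List Unit) =>
      (U p.2 (bits (p.1.2 ++ [0], [()])) p.1.1.length).bind (unbits (ℤ × ℕ))) (g := fun _ => 0)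
    (h := fun p a => ((U p.2 (bits (p.1.2 ++ [1], [()])) p.1.1.length).bind
      (unbits (ℤ × ℕ))).elim 0 (fun b =>
        if b.1.natAbs * a.2 < a.1.natAbs * b.2 then 1 else 0))
    (poly_out (by fun_prop) (by fun_prop) (by fun_prop)) (by fun_prop) ?_
  refine Poly.optElim (o := fun p : ((List Unit × List ℕ) × (T × List Unit)) × (ℤ × ℕ) =>
      (U p.1.2 (bits (p.1.1.2 ++ [1], [()])) p.1.1.1.length).bind (unbits (ℤ × ℕ)))
    (g := fun _ => 0)
    (h := fun p b => if b.1.natAbs * p.2.2 < p.2.1.natAbs * b.2 then 1 else 0)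
    (poly_out (by fun_prop) (by fun_prop) (by fun_prop)) (by fun_prop) ?_
  fun_prop

theorem letter_le (t : List Unit) (w : List ℕ) : letter t w ≤ 1 := by
  unfold letter
  cases codeOf (w.length % (t.length.bits.length + 1)) with
  | none => simp
  | some e =>
    simp only [Option.elim_some]
    cases (U e (bits (w ++ [0], [()])) t.length).bind (unbits (ℤ × ℕ)) with
    | none => simp
    | some a =>
      simp only [Option.elim_some]
      cases (U e (bits (w ++ [1], [()])) t.length).bind (unbits (ℤ × ℕ)) with
      | none => simp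
      | some b =>
        simp only [Option.elim_some]
        split_ifs <;> simp

theorem iter_spec (t : List Unit) : ∀ k : ℕ,
    ((fun w => w ++ [letter t w])^[k] []).length = k ∧
    ∀ a ∈ (fun w => w ++ [letter t w])^[k] [], a ≤ 1
  | 0 => by simp
  | k + 1 => by
    obtain ⟨h1, h2⟩ := iter_spec t k
    rw [Function.iterate_succ_apply']
    refine ⟨by simp [h1], ?_⟩
    intro a ha
    rw [List.mem_append, List.mem_singleton] at ha
    rcases ha with ha | rfl
    · exact h2 a ha
    · exact letter_le _ _

theorem sz_le_one {a : ℕ} (ha : a ≤ 1) : sz a ≤ 5 := by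
  have h1 := sz_nat_le a
  have h2 : a.size ≤ 1 := (Nat.size_le_size ha).trans (by simp)
  omega

theorem poly_diag : Poly diag := by
  unfold diag
  refine Poly.iterLen (l := fun t : List Unit => t) (s := fun _ => ([] : List ℕ))
    (F := fun t w => w ++ [letter t w]) Poly.id (NPC.Poly.const []) ?_
    (6 * Polynomial.X + 1) ?_
  · exact Poly.append (Poly.snd Poly.id) (Poly.cons poly_letter (NPC.Poly.const []))
  · intro t k hk
    obtain ⟨h1, h2⟩ := iter_spec t k
    have h3 := sz_le_length_mul ((fun w => w ++ [letter t w])^[k] []) 5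
      (fun a ha => sz_le_one (h2 a ha))
    rw [h1] at h3
    have h4 := length_lt_sz t
    simp only [Polynomial.eval_add, Polynomial.eval_mul, Polynomial.eval_X, Polynomial.eval_one,
      Polynomial.eval_ofNat]
    refine h3.trans ?_
    omega

theorem diag_length (t : List Unit) : (diag t).length = t.length := (iter_spec t _).1

theorem diag_le (t : List Unit) : ∀ a ∈ diag t, a ≤ 1 := (iter_spec t _).2

end Pool.Agent.V7H90.OE
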