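import Pool.Agent.NPC.Defs

/-!
# Offline and online estimators, regret, and the class of estimators computable in polynomial time
-/

set_option autoImplicit false

namespace Pool.Agent.V7H90.OE

open Pool.Agent.NPC

/-- An offline estimator over the alphabet `{0, …, s - 1}`: a nonnegative function on strings whose
values on the strings of length `n` sum to `1`, for every `n`. -/
def Offline {s : ℕ} (q : List (Fin s) → ℝ) : Prop :=
  (∀ x, 0 ≤ q x) ∧ ∀ n : ℕ, ∑ x : Fin n → Fin s, q (List.ofFn x) = 1

/-- An online (time-consistent) estimator: a nonnegative function on strings with value `1` at the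
empty string, whose value at `x` is the sum of its values at the strings `x a`, `a` a letter. -/
def Online {s : ℕ} (q : List (Fin s) → ℝ) : Prop :=
  (∀ x, 0 ≤ q x) ∧ q [] = 1 ∧ ∀ x, q x = ∑ a : Fin s, q (x ++ [a])

/-- The class `P`: some polynomial-time computable function `g` maps the code of every string `x`
and every number `k` in unary to the code of a rational number that approximates `f x` with
relative error at most `2 ^ (-k)`. -/
def InP {s : ℕ} (f : List (Fin s) → ℝ) : Prop :=
  ∃ g : List Bool → List Bool, PolyTime g ∧ ∀ (x : List (Fin s)) (k : ℕ), ∃ a : ℚ,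
    g (bits (x.map Fin.val, List.replicate k ())) = bits a ∧ |(a : ℝ) - f x| ≤ (1 / 2) ^ k * f x

/-- The regret `R_n` of `q'` relative to `q`: the largest value of `ln (q x / q' x)` for strings `x`
of length `n`, as an extended real number. -/
noncomputable def regret {s : ℕ} (q' q : List (Fin s) → ℝ) (n : ℕ) : EReal :=
  ⨆ x : Fin n → Fin s, ENNReal.log
    (ENNReal.ofReal (q (List.ofFn x)) / ENNReal.ofReal (q' (List.ofFn x)))

end Pool.Agent.V7H90.OE
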