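import Pool.Agent.V7H90.OE.Main

/-!
# The regret of every online estimator in `P` is at least a power of `n`
-/

set_option autoImplicit false

namespace Pool.Agent.V7H90.OE

open Pool.Agent.NPC Pool.Agent.H660R2.NX Filter

variable {s : ℕ}

/-- Elementary inequality used at the end. -/
theorem pow_le_exp {y : ℝ} (hy : 4 ≤ y) {m S : ℕ} (hm : y ^ 4 - 1 ≤ m) (hS0 : 0 < S)
    (hS : (S : ℝ) ≤ y) : ((3 : ℝ) / 4) ^ (m / S) ≤ Real.exp (-y) := by
  have hS1 : (0 : ℝ) < S := by exact_mod_cast hS0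
  have h1 : (m : ℝ) / S - 1 ≤ ((m / S : ℕ) : ℝ) := by
    have h2 : m < (m / S + 1) * S := by
      have := Nat.lt_div_mul_add (a := m) hS0
      have h3 : (m / S + 1) * S = m / S * S + S := by ring
      omega
    have h3 : (m : ℝ) < (((m / S : ℕ) : ℝ) + 1) * S := by exact_mod_cast h2
    have h4 : (m : ℝ) / S < ((m / S : ℕ) : ℝ) + 1 := by rwa [div_lt_iff₀ hS1]
    linarith
  have h5 : (y ^ 4 - 1) / y ≤ (m : ℝ) / S := by
    rw [div_le_div_iff₀ (by linarith) hS1]
    have h6 : 0 ≤ y ^ 4 - 1 := by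
      have : 1 ≤ y ^ 4 := one_le_pow₀ (by linarith)
      linarith
    calc (y ^ 4 - 1) * S ≤ (y ^ 4 - 1) * y := mul_le_mul_of_nonneg_left hS h6
      _ ≤ m * y := mul_le_mul_of_nonneg_right hm (by linarith)
  have h7 : y ^ 3 - 1 ≤ (y ^ 4 - 1) / y := by
    rw [le_div_iff₀ (by linarith)]
    nlinarith
  have h8 : 4 * y ≤ ((m / S : ℕ) : ℝ) := by
    have : 4 * y + 2 ≤ y ^ 3 := by nlinarith [sq_nonneg y, sq_nonneg (y - 4)]
    linarith
  have h9 : (3 : ℝ) / 4 ≤ Real.exp (-(1 / 4)) := by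
    have := Real.add_one_le_exp (-(1 / 4) : ℝ)
    linarith
  calc ((3 : ℝ) / 4) ^ (m / S) ≤ (Real.exp (-(1 / 4))) ^ (m / S) :=
        pow_le_pow_left₀ (by norm_num) h9 _
    _ = Real.exp (-(((m / S : ℕ) : ℝ) / 4)) := by
        rw [← Real.exp_nat_mul]; congr 1; ring
    _ ≤ Real.exp (-y) := Real.exp_le_exp.2 (by linarith)

theorem size_le_log {n : ℕ} (hn : 1 ≤ n) : ((n.bits.length + 1 : ℕ) : ℝ) ≤ 2 * Real.log n + 2 := by
  rw [Nat.size_eq_bits_len]
  have h1 : 0 < n.size := Nat.size_pos.2 (by omega)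
  have h2 : 2 ^ (n.size - 1) ≤ n := Nat.lt_size.1 (by omega)
  have h3 : ((2 : ℝ) ^ (n.size - 1)) ≤ n := by exact_mod_cast h2
  have h4 := Real.log_le_log (by positivity) h3
  rw [Real.log_pow] at h4
  have h5 : ((n.size - 1 : ℕ) : ℝ) = (n.size : ℝ) - 1 := by
    rw [Nat.cast_sub (by omega)]; simp
  rw [h5] at h4
  have h6 : (1 : ℝ) / 2 ≤ Real.log 2 := by have := Real.log_two_gt_d9; linarith
  have h7 : (1 : ℝ) ≤ n.size := by exact_mod_cast h1
  push_cast
  nlinarith

/-- The main estimate: every online estimator in `P` is at most `exp (-n ^ δ)` at the diagonal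
string of length `n`. -/
theorem main {q : List (Fin s) → ℝ} (hq : Online q) (hP : InP q) (hs : 2 ≤ s) :
    ∃ δ : ℝ, 0 < δ ∧ ∀ᶠ n : ℕ in atTop,
      q (toF hs (diag (List.replicate n ()))) ≤ Real.exp (-((n : ℝ) ^ δ)) := by
  obtain ⟨g, hgP, hg⟩ := hP
  obtain ⟨e, p, hU⟩ := U_complete hgP
  obtain ⟨i, hi⟩ := exists_code e
  obtain ⟨C, k, hC⟩ := poly_growth (p.comp (6 * Polynomial.X + 20))
  have hK : (0 : ℝ) < 4 * ((k : ℝ) + 1) := by positivity
  refine ⟨1 / (4 * ((k : ℝ) + 1)), by positivity, ?_⟩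
  set δ : ℝ := 1 / (4 * ((k : ℝ) + 1)) with hδ
  have hδ0 : 0 < δ := by positivity
  have hy : Tendsto (fun n : ℕ => (n : ℝ) ^ δ) atTop atTop :=
    (tendsto_rpow_atTop hδ0).comp tendsto_natCast_atTop_atTop
  have hlog : ∀ᶠ n : ℕ in atTop, Real.log n ≤ 1 / 4 * (n : ℝ) ^ δ := by
    have h1 := (isLittleO_log_rpow_atTop hδ0).comp_tendsto tendsto_natCast_atTop_atTop
    have h2 := h1.bound (c := 1 / 4) (by norm_num)
    filter_upwards [h2, eventually_ge_atTop 1] with n hn hn1
    simp only [Function.comp_apply] at hn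
    have h3 : 0 ≤ Real.log (n : ℝ) := Real.log_natCast_nonneg n
    rw [Real.norm_of_nonneg h3, Real.norm_of_nonneg (by positivity)] at hn
    exact hn
  filter_upwards [hlog, hy.eventually_ge_atTop 4, hy.eventually_ge_atTop (C : ℝ),
    eventually_ge_atTop 1, eventually_ge_atTop (2 ^ i)] with n h1 h2 h3 h4 h5
  set y : ℝ := (n : ℝ) ^ δ with hydef
  have hn0 : (0 : ℝ) ≤ n := Nat.cast_nonneg n
  have hyn : y ^ (4 * (k + 1)) = n := by
    rw [hydef, ← Real.rpow_natCast, ← Real.rpow_mul hn0]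
    have : δ * ((4 * (k + 1) : ℕ) : ℝ) = 1 := by
      rw [hδ]; push_cast; field_simp
    rw [this, Real.rpow_one]
  have hlen : (List.replicate n ()).length = n := by simp
  have hS : ((n.bits.length + 1 : ℕ) : ℝ) ≤ y := by
    have := size_le_log h4
    linarith
  have hiS : i ≤ n.bits.length := by
    rw [Nat.size_eq_bits_len]
    exact (Nat.lt_size.2 h5).le
  have hy1 : 1 ≤ y := by linarith
  have hyn4 : y ^ 4 ≤ n := by
    rw [← hyn]
    exact pow_le_pow_right₀ hy1 (by omega)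
  have hfl : ((⌊y ^ 4⌋₊ : ℕ) : ℝ) ≤ y ^ 4 := Nat.floor_le (by positivity)
  have hfl2 : y ^ 4 - 1 ≤ (⌊y ^ 4⌋₊ : ℕ) := by
    have := Nat.lt_floor_add_one (y ^ 4)
    linarith
  have hmn : ⌊y ^ 4⌋₊ ≤ n := by exact_mod_cast hfl.trans hyn4
  have h6 := diag_small hq hs hg hi (List.replicate n ()) (by rw [hlen]; exact hiS) ⌊y ^ 4⌋₊
    (by rw [hlen]; exact hmn) (by
      intro w hw hw1 b hb
      rw [hlen]
      refine hU _ _ ?_
      have h7 := input_length w hw1 b hb
      have h8 : p.eval (bits (w ++ [b], [()])).length ≤ p.eval (6 * w.length + 20) :=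
        eval_mono p h7
      have h9 := hC w.length
      rw [Polynomial.eval_comp] at h9
      simp only [Polynomial.eval_add, Polynomial.eval_mul, Polynomial.eval_X,
        Polynomial.eval_ofNat] at h9
      have h10 : C * (w.length + 1) ^ k ≤ n := by
        have h11 : ((w.length + 1 : ℕ) : ℝ) ≤ y ^ 4 := by
          have h12 : w.length + 1 ≤ ⌊y ^ 4⌋₊ := hw
          exact (by exact_mod_cast h12 : ((w.length + 1 : ℕ) : ℝ) ≤ (⌊y ^ 4⌋₊ : ℕ)).trans hfl
        have h13 : (C : ℝ) * ((w.length + 1 : ℕ) : ℝ) ^ k ≤ n := by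
          calc (C : ℝ) * ((w.length + 1 : ℕ) : ℝ) ^ k ≤ y ^ 4 * (y ^ 4) ^ k := by
                refine mul_le_mul ?_ (pow_le_pow_left₀ (by positivity) h11 k) (by positivity)
                  (by positivity)
                exact h3.trans (by
                  calc y = y ^ 1 := (pow_one y).symm
                    _ ≤ y ^ 4 := pow_le_pow_right₀ hy1 (by norm_num))
            _ = y ^ (4 * (k + 1)) := by ring
            _ = n := hyn
        exact_mod_cast h13
      omega)
  rw [hlen] at h6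
  exact h6.trans (pow_le_exp h2 hfl2 (by omega) hS)

/-! ### The offline estimator -/

/-- the point masses at the diagonal strings -/
noncomputable def pm (s : ℕ) (x : List (Fin s)) : ℝ :=
  if x.map Fin.val = diag (x.map (fun _ => ())) then 1 else 0

theorem pm_diag (hs : 2 ≤ s) (n : ℕ) : pm s (toF hs (diag (List.replicate n ()))) = 1 := by
  unfold pm
  rw [if_pos]
  rw [toF_val hs _ (diag_le _)]
  congr 1
  rw [List.map_const', toF, List.length_map, diag_length]
  simp

theorem toF_inj (hs : 2 ≤ s) (x : List (Fin s)) : toF hs (x.map Fin.val) = x := by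
  unfold toF
  rw [List.map_map]
  conv_rhs => rw [← List.map_id x]
  refine List.map_congr_left fun a _ => ?_
  simp

theorem pm_offline (hs : 2 ≤ s) : Offline (pm s) := by
  refine ⟨fun x => by unfold pm; split_ifs <;> norm_num, fun n => ?_⟩
  have hlen : (toF hs (diag (List.replicate n ()))).length = n := by
    rw [toF, List.length_map, diag_length]; simp
  obtain ⟨x₀, hx₀⟩ : ∃ x₀ : Fin n → Fin s, List.ofFn x₀ = toF hs (diag (List.replicate n ())) := by
    refine ⟨fun i => (toF hs (diag (List.replicate n ()))).get (i.cast hlen.symm), ?_⟩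
    refine List.ext_getElem (by simp [hlen]) fun i h1 h2 => ?_
    simp
  rw [Finset.sum_eq_single x₀]
  · rw [hx₀, pm_diag hs n]
  · intro x _ hx
    unfold pm
    rw [if_neg]
    intro h
    apply hx
    apply List.ofFn_injective
    rw [hx₀, ← toF_inj hs (List.ofFn x), h]
    congr 2
    rw [List.map_const', List.length_ofFn]
  · intro h
    exact absurd (Finset.mem_univ _) h

/-- the machine of the offline estimator -/
def pmFun (y : List Bool) : ℚ :=
  (unbits (List ℕ × List Unit) y).elim 0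
    (fun x => if x.1 = diag (x.1.map (fun _ => ())) then 1 else 0)

theorem poly_pmFun : Poly pmFun := by
  unfold pmFun
  have h1 : Poly (unbits (List ℕ × List Unit)) := poly_unbits
  refine Poly.optElim (o := fun y => unbits (List ℕ × List Unit) y) (g := fun _ => (0 : ℚ))
    (h := fun _ x => if x.1 = diag (x.1.map (fun _ => ())) then 1 else 0) h1 (NPC.Poly.const _) ?_
  refine Poly.ite (Poly.decide_eq (by fun_prop) ?_) (NPC.Poly.const _) (NPC.Poly.const _)
  exact poly_diag.comp (f := fun p : List Bool × (List ℕ × List Unit) =>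
    p.2.1.map (fun _ => ())) (by fun_prop)

theorem pm_inP : InP (pm s) := by
  refine ⟨fun y => bits (pmFun y), polyTime_bits poly_pmFun, fun x k => ?_⟩
  refine ⟨pmFun (bits (x.map Fin.val, List.replicate k ())), rfl, ?_⟩
  have h : ((pmFun (bits (x.map Fin.val, List.replicate k ())) : ℚ) : ℝ) = pm s x := by
    unfold pmFun pm
    rw [unbits_bits, Option.elim_some]
    simp only [List.map_map]
    have e : ((fun _ => ()) ∘ Fin.val : Fin s → Unit) = fun _ => () := rfl
    rw [e]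
    split_ifs <;> simp
  rw [h, sub_self, abs_zero]
  have : 0 ≤ pm s x := by unfold pm; split_ifs <;> norm_num
  positivity

/-! ### Regret -/

theorem regret_ge {q : List (Fin s) → ℝ} (hs : 2 ≤ s) {n : ℕ} {r : ℝ}
    (h : q (toF hs (diag (List.replicate n ()))) ≤ Real.exp (-r)) :
    (r : EReal) ≤ regret q (pm s) n := by
  have hlen : (toF hs (diag (List.replicate n ()))).length = n := by
    rw [toF, List.length_map, diag_length]; simp
  obtain ⟨x₀, hx₀⟩ : ∃ x₀ : Fin n → Fin s, List.ofFn x₀ = toF hs (diag (List.replicate n ())) := by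
    refine ⟨fun i => (toF hs (diag (List.replicate n ()))).get (i.cast hlen.symm), ?_⟩
    refine List.ext_getElem (by simp [hlen]) fun i h1 h2 => ?_
    simp
  refine le_trans ?_ (le_iSup _ x₀)
  rw [hx₀, pm_diag hs n, ENNReal.ofReal_one]
  have h1 : ENNReal.ofReal (Real.exp r) ≤
      1 / ENNReal.ofReal (q (toF hs (diag (List.replicate n ())))) := by
    rw [one_div, ENNReal.le_inv_iff_mul_le]
    calc ENNReal.ofReal (Real.exp r) * ENNReal.ofReal (q (toF hs (diag (List.replicate n ()))))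
        ≤ ENNReal.ofReal (Real.exp r) * ENNReal.ofReal (Real.exp (-r)) := by gcongr
      _ = 1 := by
        rw [← ENNReal.ofReal_mul (Real.exp_pos _).le, ← Real.exp_add, add_neg_cancel,
          Real.exp_zero, ENNReal.ofReal_one]
  refine le_trans (le_of_eq ?_) (ENNReal.log_monotone h1)
  rw [ENNReal.log_ofReal, if_neg (not_le.2 (Real.exp_pos _)), Real.log_exp]

/-- Powers of `n` dominate the square of the logarithm. -/
theorem not_polylog {δ : ℝ} (hδ : 0 < δ) (C : ℝ) :
    ∀ᶠ n : ℕ in atTop, C * Real.log n ^ 2 < (n : ℝ) ^ δ := by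
  have h1 := (isLittleO_log_rpow_atTop (half_pos hδ)).comp_tendsto tendsto_natCast_atTop_atTop
  obtain ⟨c, hc0, hc⟩ : ∃ c : ℝ, 0 < c ∧ C * c ^ 2 < 1 := by
    refine ⟨1 / (|C| + 1), by positivity, ?_⟩
    have h3 : C * (1 / (|C| + 1)) ^ 2 ≤ |C| * (1 / (|C| + 1)) ^ 2 :=
      mul_le_mul_of_nonneg_right (le_abs_self C) (by positivity)
    refine lt_of_le_of_lt h3 ?_
    have h4 : 0 ≤ |C| := abs_nonneg C
    rw [one_div, inv_pow, ← div_eq_mul_inv, div_lt_one (by positivity)]
    nlinarith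
  have h2 := h1.bound (c := c) hc0
  filter_upwards [h2, eventually_ge_atTop 1] with n hn hn1
  simp only [Function.comp_apply] at hn
  have h3 : 0 ≤ Real.log (n : ℝ) := Real.log_natCast_nonneg n
  have hn1' : (1 : ℝ) ≤ n := by exact_mod_cast hn1
  rw [Real.norm_of_nonneg h3, Real.norm_of_nonneg (by positivity)] at hn
  have h4 : (n : ℝ) ^ δ = ((n : ℝ) ^ (δ / 2)) ^ 2 := by
    rw [← Real.rpow_natCast, ← Real.rpow_mul (by positivity)]
    congr 1; push_cast; ring
  have h5 : 0 < (n : ℝ) ^ (δ / 2) := by positivity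
  rw [h4]
  rcases le_or_gt C 0 with hC | hC
  · have : C * Real.log n ^ 2 ≤ 0 := mul_nonpos_of_nonpos_of_nonneg hC (sq_nonneg _)
    have h6 : 0 < ((n : ℝ) ^ (δ / 2)) ^ 2 := by positivity
    linarith
  · calc C * Real.log n ^ 2 ≤ C * (c * (n : ℝ) ^ (δ / 2)) ^ 2 := by gcongr
      _ = (C * c ^ 2) * ((n : ℝ) ^ (δ / 2)) ^ 2 := by ring
      _ < 1 * ((n : ℝ) ^ (δ / 2)) ^ 2 := by gcongr
      _ = ((n : ℝ) ^ (δ / 2)) ^ 2 := one_mul _

end Pool.Agent.V7H90.OE
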