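import Pool.Agent.V7H90.OE.Alg

/-!
# Every online estimator in `P` is small on the diagonal strings
-/

set_option autoImplicit false

namespace Pool.Agent.V7H90.OE

open Pool.Agent.NPC Pool.Agent.H660R2.NX

variable {s : ℕ}

/-- strings of numbers as strings over `{0, …, s - 1}` -/
def toF (hs : 2 ≤ s) (w : List ℕ) : List (Fin s) :=
  w.map (fun a => if h : a < s then ⟨a, h⟩ else ⟨0, by omega⟩)

theorem toF_val (hs : 2 ≤ s) (w : List ℕ) (hw : ∀ a ∈ w, a ≤ 1) : (toF hs w).map Fin.val = w := by
  unfold toF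
  rw [List.map_map]
  conv_rhs => rw [← List.map_id w]
  refine List.map_congr_left fun a ha => ?_
  have h1 : a < s := by have := hw a ha; omega
  simp [h1]

theorem toF_append (hs : 2 ≤ s) (w : List ℕ) (b : ℕ) (hb : b < s) :
    toF hs (w ++ [b]) = toF hs w ++ [⟨b, hb⟩] := by
  simp [toF, hb]

theorem two_le {q : List (Fin s) → ℝ} (hq : Online q) (hs : 2 ≤ s) (w : List ℕ) :
    q (toF hs (w ++ [0])) + q (toF hs (w ++ [1])) ≤ q (toF hs w) := by
  rw [toF_append hs w 0 (by omega), toF_append hs w 1 (by omega), hq.2.2 (toF hs w)]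
  have h1 : ({⟨0, by omega⟩, ⟨1, by omega⟩} : Finset (Fin s)) ⊆ Finset.univ := Finset.subset_univ _
  have h2 := Finset.sum_le_sum_of_subset_of_nonneg (f := fun a => q (toF hs w ++ [a])) h1
    (fun i _ _ => hq.1 _)
  rw [Finset.sum_pair (by simp [Fin.ext_iff])] at h2
  exact h2

theorem step_le {q : List (Fin s) → ℝ} (hq : Online q) (hs : 2 ≤ s) (w : List ℕ) (b : ℕ)
    (hb : b ≤ 1) : q (toF hs (w ++ [b])) ≤ q (toF hs w) := by
  have h := two_le hq hs w
  have h0 := hq.1 (toF hs (w ++ [0]))
  have h1 := hq.1 (toF hs (w ++ [1]))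
  interval_cases b <;> linarith

theorem unbits_rat (a : ℚ) : unbits (ℤ × ℕ) (bits a) = some (a.num, a.den) :=
  unbits_bits (a.num, a.den)

/-- A step at which the program of the estimator is used. -/
theorem step_good {q : List (Fin s) → ℝ} (hq : Online q) (hs : 2 ≤ s)
    {g : List Bool → List Bool}
    (hg : ∀ (x : List (Fin s)) (k : ℕ), ∃ a : ℚ,
      g (bits (x.map Fin.val, List.replicate k ())) = bits a ∧ |(a : ℝ) - q x| ≤ (1 / 2) ^ k * q x)
    {e : T × List Unit} (t : List Unit) (w : List ℕ) (hw : ∀ a ∈ w, a ≤ 1)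
    (hcode : codeOf (w.length % (t.length.bits.length + 1)) = some e)
    (hU : ∀ b ≤ 1, U e (bits (w ++ [b], [()])) t.length = some (g (bits (w ++ [b], [()])))) :
    q (toF hs (w ++ [letter t w])) ≤ 3 / 4 * q (toF hs w) := by
  have key : ∀ b ≤ 1, ∃ a : ℚ, (U e (bits (w ++ [b], [()])) t.length).bind (unbits (ℤ × ℕ)) =
      some (a.num, a.den) ∧ (1 / 2) * q (toF hs (w ++ [b])) ≤ (a : ℝ) ∧
        (a : ℝ) ≤ (3 / 2) * q (toF hs (w ++ [b])) := by
    intro b hb
    obtain ⟨a, ha, ha2⟩ := hg (toF hs (w ++ [b])) 1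
    have h1 : (toF hs (w ++ [b])).map Fin.val = w ++ [b] := by
      refine toF_val hs _ fun c hc => ?_
      rw [List.mem_append, List.mem_singleton] at hc
      rcases hc with hc | rfl
      · exact hw c hc
      · exact hb
    rw [h1] at ha
    have h2 : List.replicate 1 () = [()] := rfl
    rw [h2] at ha
    refine ⟨a, ?_, ?_, ?_⟩
    · rw [hU b hb, ha, Option.bind_some, unbits_rat]
    · rw [abs_le] at ha2; linarith [ha2.1]
    · rw [abs_le] at ha2; linarith [ha2.2]
  obtain ⟨a, ha, ha1, ha2⟩ := key 0 (by omega)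
  obtain ⟨b, hb, hb1, hb2⟩ := key 1 le_rfl
  have hq0 := hq.1 (toF hs (w ++ [0]))
  have hq1 := hq.1 (toF hs (w ++ [1]))
  have ha0 : (0 : ℚ) ≤ a := by exact_mod_cast (by linarith : (0 : ℝ) ≤ a)
  have hb0 : (0 : ℚ) ≤ b := by exact_mod_cast (by linarith : (0 : ℝ) ≤ b)
  have hl : letter t w = if b < a then 1 else 0 := by
    unfold letter
    rw [hcode, Option.elim_some, ha, Option.elim_some, hb, Option.elim_some]
    have h3 : (b.num.natAbs * a.den < a.num.natAbs * b.den) ↔ b < a := by
      have h4 : ((b.num.natAbs : ℕ) : ℤ) = b.num := Int.natAbs_of_nonneg (Rat.num_nonneg.2 hb0)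
      have h5 : ((a.num.natAbs : ℕ) : ℤ) = a.num := Int.natAbs_of_nonneg (Rat.num_nonneg.2 ha0)
      rw [Rat.lt_iff, ← h4, ← h5]
      norm_cast
    simp only [h3]
  have h2 := two_le hq hs w
  rw [hl]
  split_ifs with hba
  · have h6 : (b : ℝ) < a := by exact_mod_cast hba
    nlinarith
  · have h6 : (a : ℝ) ≤ b := by exact_mod_cast not_lt.1 hba
    nlinarith

/-- The value of the estimator after `l` steps. -/
theorem iter_le {q : List (Fin s) → ℝ} (hq : Online q) (hs : 2 ≤ s)
    {g : List Bool → List Bool}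
    (hg : ∀ (x : List (Fin s)) (k : ℕ), ∃ a : ℚ,
      g (bits (x.map Fin.val, List.replicate k ())) = bits a ∧ |(a : ℝ) - q x| ≤ (1 / 2) ^ k * q x)
    {e : T × List Unit} {i : ℕ} (hi : codeOf i = some e) (t : List Unit)
    (hit : i ≤ t.length.bits.length) (m : ℕ)
    (hU : ∀ w : List ℕ, w.length < m → (∀ a ∈ w, a ≤ 1) → ∀ b ≤ 1,
      U e (bits (w ++ [b], [()])) t.length = some (g (bits (w ++ [b], [()])))) :
    ∀ l : ℕ, q (toF hs ((fun w => w ++ [letter t w])^[l] [])) ≤
      (3 / 4) ^ (Nat.count (fun j => j ≡ i [MOD (t.length.bits.length + 1)]) (min l m))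
  | 0 => by
    simp only [Function.iterate_zero, id_eq, Nat.zero_min, Nat.count_zero, pow_zero]
    exact le_of_eq hq.2.1
  | l + 1 => by
    have ih := iter_le hq hs hg hi t hit m hU l
    obtain ⟨h1, h2⟩ := iter_spec t l
    rw [Function.iterate_succ_apply']
    set w := (fun w => w ++ [letter t w])^[l] [] with hw
    have h3 := step_le hq hs w _ (letter_le t w)
    have h3' : q (toF hs ((fun w => w ++ [letter t w]) w)) ≤ q (toF hs w) := h3
    by_cases hlm : l < m
    · have e1 : min (l + 1) m = l + 1 := by omega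
      have e2 : min l m = l := by omega
      rw [e1, Nat.count_succ]
      rw [e2] at ih
      split_ifs with hc
      · have h4 : codeOf (w.length % (t.length.bits.length + 1)) = some e := by
          rw [h1, ← hi]
          have h5 : l % (t.length.bits.length + 1) = i := by
            have h6 : l % (t.length.bits.length + 1) = i % (t.length.bits.length + 1) := hc
            rw [h6, Nat.mod_eq_of_lt (by omega)]
          rw [h5]
        have h7 := step_good hq hs hg t w h2 h4 (hU w (by omega) h2)
        have h8 : q (toF hs ((fun w => w ++ [letter t w]) w)) ≤ 3 / 4 * q (toF hs w) := h7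
        rw [pow_succ]
        linarith
      · exact h3'.trans ih
    · have e1 : min (l + 1) m = min l m := by omega
      rw [e1]
      exact h3'.trans ih

/-- The value of the estimator at the diagonal string. -/
theorem diag_small {q : List (Fin s) → ℝ} (hq : Online q) (hs : 2 ≤ s)
    {g : List Bool → List Bool}
    (hg : ∀ (x : List (Fin s)) (k : ℕ), ∃ a : ℚ,
      g (bits (x.map Fin.val, List.replicate k ())) = bits a ∧ |(a : ℝ) - q x| ≤ (1 / 2) ^ k * q x)
    {e : T × List Unit} {i : ℕ} (hi : codeOf i = some e) (t : List Unit)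
    (hit : i ≤ t.length.bits.length) (m : ℕ) (hm : m ≤ t.length)
    (hU : ∀ w : List ℕ, w.length < m → (∀ a ∈ w, a ≤ 1) → ∀ b ≤ 1,
      U e (bits (w ++ [b], [()])) t.length = some (g (bits (w ++ [b], [()])))) :
    q (toF hs (diag t)) ≤ (3 / 4) ^ (m / (t.length.bits.length + 1)) := by
  have h1 := iter_le hq hs hg hi t hit m hU t.length
  rw [min_eq_right hm] at h1
  refine h1.trans ?_
  refine pow_le_pow_of_le_one (by norm_num) (by norm_num) ?_
  rw [Nat.count_modEq_card m (by omega) i]
  omega

theorem exists_code (e : T × List Unit) : ∃ i, codeOf i = some e := by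
  refine ⟨valB (bits e ++ [true]), ?_⟩
  unfold codeOf
  rw [← normB_eq]
  have h1 : normB (bits e ++ [true]) = bits e ++ [true] := by
    unfold normB
    rw [List.reverse_append, List.reverse_singleton, List.singleton_append, List.foldl_cons]
    have h2 : ∀ (l acc : List Bool), acc ≠ [] →
        l.foldl (fun acc b => if b = false ∧ acc = [] then [] else b :: acc) acc =
          l.reverse ++ acc := by
      intro l
      induction l with
      | nil => intro acc _; rfl
      | cons b l ih =>
        intro acc hacc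
        rw [List.foldl_cons, if_neg (by simp [hacc]), ih _ (by simp)]
        simp
    rw [if_neg (by simp), h2 _ _ (by simp)]
    simp
  rw [h1]
  have h3 : (bits e ++ [true]).reverse.tail.reverse = bits e := by simp
  rw [h3, unbits_bits]

theorem input_length (w : List ℕ) (hw : ∀ a ∈ w, a ≤ 1) (b : ℕ) (hb : b ≤ 1) :
    (bits (w ++ [b], [()])).length ≤ 6 * w.length + 20 := by
  rw [bits_length]
  have h1 := sz_le_length_mul (w ++ [b]) 5 (fun a ha => by
    rw [List.mem_append, List.mem_singleton] at ha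
    rcases ha with ha | rfl
    · exact sz_le_one (hw a ha)
    · exact sz_le_one hb)
  simp only [List.length_append, List.length_singleton] at h1
  have h2 : sz [()] = 3 := rfl
  rw [sz_pair, h2]
  omega

theorem poly_growth (p : Polynomial ℕ) : ∃ C k : ℕ, ∀ x, p.eval x ≤ C * (x + 1) ^ k := by
  induction p using Polynomial.induction_on' with
  | add p q hp hq =>
    obtain ⟨C, k, h⟩ := hp
    obtain ⟨D, l, h'⟩ := hq
    refine ⟨C + D, k + l, fun x => ?_⟩
    rw [Polynomial.eval_add, add_mul]
    have h1 : 1 ≤ x + 1 := by omega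
    refine add_le_add ((h x).trans ?_) ((h' x).trans ?_)
    · exact Nat.mul_le_mul_left _ (Nat.pow_le_pow_right h1 (by omega))
    · exact Nat.mul_le_mul_left _ (Nat.pow_le_pow_right h1 (by omega))
  | monomial k c =>
    refine ⟨c, k, fun x => ?_⟩
    rw [Polynomial.eval_monomial]
    exact Nat.mul_le_mul_left _ (Nat.pow_le_pow_left (by omega) _)

end Pool.Agent.V7H90.OE
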